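import Mathlib
import Pool.Agent.X104.Seg.Limit

set_option autoImplicit false

open MeasureTheory Set

namespace Pool.Agent.Results.MP_60620c_an.NullSegments

/-- The Euclidean plane; `volume` on it is two-dimensional Lebesgue measure. -/
abbrev Plane : Type := EuclideanSpace ℝ (Fin 2)

/-- The closed segment with endpoints `a`, `b` has length `1` and slope `s` (coordinates are
numbered `0` and `1`). -/
def IsUnitSegment (s : ℝ) (a b : Plane) : Prop :=
  dist a b = 1 ∧ a 0 ≠ b 0 ∧ (b 1 - a 1) / (b 0 - a 0) = s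

/-- The double `2ℓ` of the segment `ℓ` with endpoints `a`, `b`: its image under the dilation
`x ↦ m + 2 (x - m)`, where `m` is the midpoint. -/
def double (a b : Plane) : Set Plane :=
  (fun x => midpoint ℝ a b + (2 : ℝ) • (x - midpoint ℝ a b)) '' segment ℝ a b

/-- the coordinates -/
def φ (v : Plane) : ℝ × ℝ := (v 0, v 1)

lemma φ_mp : MeasurePreserving φ (volume : Measure Plane) volume := by
  have h := (volume_preserving_finTwoArrow ℝ).comp (PiLp.volume_preserving_ofLp (Fin 2))
  exact h

/-- Q1: there is a family of unit segments, at most one for each slope in a subset `S` of the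
triadic Cantor set, whose union is null while the union of the doubles is not null. -/
theorem result : ∃ (S : Set ℝ) (a b : ℝ → Plane),
    S ⊆ cantorSet ∧ (∀ s ∈ S, IsUnitSegment s (a s) (b s)) ∧
    volume (⋃ s ∈ S, segment ℝ (a s) (b s)) = 0 ∧
    0 < volume (⋃ s ∈ S, double (a s) (b s)) := by
  classical
  obtain ⟨Λ, hΛc, hΛC, hΛu, hbody, hreach⟩ := Pool.Agent.X104.Seg.exists_limit
  set α : ℝ → ℝ := fun s => if h : ∃ a, (s, a) ∈ Λ then h.choose else 0 with hα
  have hαs : ∀ s a, (s, a) ∈ Λ → (s, α s) ∈ Λ ∧ α s = a := by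
    intro s a h
    have hex : ∃ a, (s, a) ∈ Λ := ⟨a, h⟩
    have h1 : α s = hex.choose := by simp only [hα]; rw [dif_pos hex]
    have h2 : (s, α s) ∈ Λ := by rw [h1]; exact hex.choose_spec
    exact ⟨h2, hΛu s _ _ h2 h⟩
  set r : ℝ → ℝ := fun s => 1 / (2 * Real.sqrt (1 + s ^ 2)) with hr
  have hsq : ∀ s : ℝ, 0 < Real.sqrt (1 + s ^ 2) := fun s => Real.sqrt_pos.mpr (by positivity)
  have hrpos : ∀ s, 0 < r s := fun s => by
    have := hsq s
    simp only [hr]; positivity
  have hr2 : ∀ s, r s ^ 2 * (1 + s ^ 2) = 1 / 4 := by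
    intro s
    have h1 := Real.sq_sqrt (by positivity : (0 : ℝ) ≤ 1 + s ^ 2)
    have h2 := hsq s
    simp only [hr]
    rw [div_pow, mul_pow, h1]
    have : (0 : ℝ) < 1 + s ^ 2 := by positivity
    field_simp
    norm_num
  have hrle : ∀ s, r s ≤ 1 / 2 := by
    intro s
    have h1 := hr2 s
    have h2 := hrpos s
    by_contra hcon
    push Not at hcon
    nlinarith [sq_nonneg s, mul_nonneg (sq_nonneg (r s)) (sq_nonneg s)]
  set a : ℝ → Plane := fun s => !₂[-(r s), α s - s * r s] with ha
  set b : ℝ → Plane := fun s => !₂[r s, α s + s * r s] with hb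
  have ha0 : ∀ s, a s 0 = -(r s) := fun s => by simp [ha]
  have ha1 : ∀ s, a s 1 = α s - s * r s := fun s => by simp [ha]
  have hb0 : ∀ s, b s 0 = r s := fun s => by simp [hb]
  have hb1 : ∀ s, b s 1 = α s + s * r s := fun s => by simp [hb]
  -- parametrisation of the segments
  have hseg : ∀ s, ∀ v ∈ segment ℝ (a s) (b s), |v 0| ≤ r s ∧ v 1 = α s + s * v 0 := by
    intro s v hv
    obtain ⟨x, y, hx, hy, hxy, rfl⟩ := hv
    have e0 : (x • a s + y • b s) 0 = (y - x) * r s := by
      simp only [PiLp.add_apply, PiLp.smul_apply, smul_eq_mul, ha0, hb0]; ring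
    have e1 : (x • a s + y • b s) 1 = α s + s * ((y - x) * r s) := by
      simp only [PiLp.add_apply, PiLp.smul_apply, smul_eq_mul, ha1, hb1]
      have : x = 1 - y := by linarith
      rw [this]; ring
    refine ⟨?_, by rw [e0, e1]⟩
    rw [e0, abs_mul, abs_of_pos (hrpos s)]
    have : |y - x| ≤ 1 := by rw [abs_le]; constructor <;> linarith
    nlinarith [hrpos s]
  have hmid : ∀ s, midpoint ℝ (a s) (b s) = !₂[0, α s] := by
    intro s
    rw [midpoint_eq_smul_add]
    ext i
    fin_cases i
    · simp [ha, hb]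
    · simp [ha, hb]; ring
  have hdouble : ∀ s, ∀ x : ℝ, |x| ≤ 2 * r s → (!₂[x, α s + s * x] : Plane)
      ∈ double (a s) (b s) := by
    intro s x hx
    rw [abs_le] at hx
    have hrp := hrpos s
    refine ⟨!₂[x / 2, α s + s * (x / 2)], ?_, ?_⟩
    · refine ⟨(1 - x / (2 * r s)) / 2, (1 + x / (2 * r s)) / 2, ?_, ?_, by ring, ?_⟩
      · have : x / (2 * r s) ≤ 1 := by rw [div_le_one (by positivity)]; linarith
        linarith
      · have : -1 ≤ x / (2 * r s) := by rw [le_div_iff₀ (by positivity)]; linarith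
        linarith
      · ext i
        fin_cases i
        · simp [ha, hb]
          field_simp
          ring
        · simp [ha, hb]
          field_simp
          ring
    · simp only [hmid]
      ext i
      fin_cases i
      · simp; ring
      · simp; ring
  refine ⟨Prod.fst '' Λ, a, b, ?_, ?_, ?_, ?_⟩
  · rintro _ ⟨p, hp, rfl⟩
    exact hΛC p hp
  · intro s _
    have hrp := hrpos s
    refine ⟨?_, ?_, ?_⟩
    · rw [EuclideanSpace.dist_eq, Fin.sum_univ_two, ha0, ha1, hb0, hb1, Real.dist_eq, Real.dist_eq,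
        sq_abs, sq_abs]
      have h1 : (-(r s) - r s) ^ 2 + (α s - s * r s - (α s + s * r s)) ^ 2
          = 4 * (r s ^ 2 * (1 + s ^ 2)) := by ring
      rw [h1, hr2]
      norm_num
    · rw [ha0, hb0]; linarith
    · rw [ha0, hb0, ha1, hb1]
      field_simp
      ring
  · -- body
    set E : Set (ℝ × ℝ) := (fun z : ℝ × (ℝ × ℝ) => (z.1, z.2.2 + z.2.1 * z.1)) ''
      (Icc (-1 / 2 : ℝ) (1 / 2) ×ˢ Λ) with hE
    have hEc : IsCompact E := (isCompact_Icc.prod hΛc).image (by fun_prop)
    have hE0 : volume E = 0 := by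
      rw [Measure.volume_eq_prod, Measure.measure_prod_null hEc.measurableSet]
      refine Filter.Eventually.of_forall fun x => ?_
      by_cases hx : x ∈ Icc (-1 / 2 : ℝ) (1 / 2)
      · refine measure_mono_null ?_ (hbody x hx)
        rintro y ⟨⟨x', p⟩, ⟨-, hp⟩, h⟩
        simp only [Prod.mk.injEq] at h
        obtain ⟨rfl, h2⟩ := h
        exact ⟨p, hp, h2⟩
      · have : Prod.mk x ⁻¹' E = ∅ := by
          rw [eq_empty_iff_forall_notMem]
          rintro y ⟨⟨x', p⟩, ⟨h1, -⟩, h⟩
          simp only [Prod.mk.injEq] at h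
          exact hx (h.1 ▸ h1)
        simp [this]
    have hsub : (⋃ s ∈ Prod.fst '' Λ, segment ℝ (a s) (b s)) ⊆ φ ⁻¹' E := by
      intro v hv
      simp only [mem_iUnion] at hv
      obtain ⟨s, ⟨p, hp, hps⟩, hv⟩ := hv
      obtain ⟨h1, h2⟩ := hseg s v hv
      have hmem := (hαs p.1 p.2 hp).1
      rw [hps] at hmem
      refine ⟨(v 0, (s, α s)), ⟨?_, hmem⟩, ?_⟩
      · have := h1.trans (hrle s)
        rw [abs_le] at this
        constructor
        · simp only; linarith [this.1]
        · exact this.2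
      · simp only [φ, h2]
    refine measure_mono_null hsub ?_
    rw [φ_mp.measure_preimage hEc.measurableSet.nullMeasurableSet, hE0]
  · -- reach
    set T : Set (ℝ × ℝ) := (fun z : ℝ × (ℝ × ℝ) => (z.1, z.2.2 + z.2.1 * z.1)) ''
      (Icc (6 / 10 : ℝ) (65 / 100) ×ˢ Λ) with hT
    have hTc : IsCompact T := (isCompact_Icc.prod hΛc).image (by fun_prop)
    have hT0 : volume T ≠ 0 := by
      intro h0
      rw [Measure.volume_eq_prod, Measure.measure_prod_null hTc.measurableSet] at h0
      have h1 : ∀ x ∈ Icc (6 / 10 : ℝ) (65 / 100), volume (Prod.mk x ⁻¹' T) ≠ 0 := by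
        intro x hx h2
        have h3 := hreach x ⟨hx.1, hx.2.trans_lt (by norm_num)⟩
        have h4 : Pool.Agent.X104.Seg.Ax Λ x ⊆ Prod.mk x ⁻¹' T := by
          rintro y ⟨p, hp, rfl⟩
          exact ⟨(x, p), ⟨hx, hp⟩, rfl⟩
        have h5 := h3.trans (measure_mono h4)
        rw [h2] at h5
        have h6 : (0 : ENNReal) < ENNReal.ofReal (1 / 2) := ENNReal.ofReal_pos.mpr (by norm_num)
        exact absurd h5 (not_le.mpr h6)
      have h2 : volume (Icc (6 / 10 : ℝ) (65 / 100)) = 0 := by
        rw [Filter.EventuallyEq, ae_iff] at h0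
        refine measure_mono_null ?_ h0
        intro x hx
        exact h1 x hx
      rw [Real.volume_Icc] at h2
      norm_num at h2
    have hsub : φ ⁻¹' T ⊆ ⋃ s ∈ Prod.fst '' Λ, double (a s) (b s) := by
      rintro v ⟨⟨x, p⟩, ⟨hx, hp⟩, h⟩
      simp only [φ, Prod.mk.injEq] at h
      obtain ⟨h1, h2⟩ := h
      have hmem := (hαs p.1 p.2 hp).2
      simp only [mem_iUnion]
      refine ⟨p.1, ⟨p, hp, rfl⟩, ?_⟩
      have hp1 : p.1 ∈ Icc (0 : ℝ) 1 := cantorSet_subset_unitInterval (hΛC p hp)
      have hrge : 7 / 20 ≤ r p.1 := by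
        have h3 := hr2 p.1
        have h4 := hrpos p.1
        by_contra hcon
        push Not at hcon
        have h5 : p.1 ^ 2 ≤ 1 := by nlinarith [hp1.1, hp1.2]
        nlinarith
      have hv : v = !₂[x, α p.1 + p.1 * x] := by
        ext i
        fin_cases i
        · simp [h1]
        · simp only [Fin.mk_one, Fin.isValue, Matrix.cons_val_one, Matrix.cons_val_fin_one]
          rw [hmem, h2]
      rw [hv]
      apply hdouble
      have hx1 := hx.1
      have hx2 := hx.2
      simp only at hx1 hx2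
      rw [abs_of_nonneg (by linarith)]
      linarith
    have h1 : volume (φ ⁻¹' T) ≠ 0 := by
      rw [φ_mp.measure_preimage hTc.measurableSet.nullMeasurableSet]
      exact hT0
    exact (pos_iff_ne_zero.mpr h1).trans_le (measure_mono hsub)

end Pool.Agent.Results.MP_60620c_an.NullSegments
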